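import Pool.Agent.N286.DE.Sets

/-! # Exponential sums with arbitrary frequencies from complete sums -/

set_option autoImplicit false

namespace Pool.Agent.J4.H39.RM

open Finset
open Pool.Agent.Helper170.Weyl (e e_add norm_e conj_e e_int e_nat_mul)
open Pool.Agent.N286.DE (sum_e e_zero ker)

/-- the Fourier coefficient of a function on `range N` -/
noncomputable def hatF (N : ℕ) (F : ℕ → ℂ) (c : ℕ) : ℂ :=
  ∑ m ∈ range N, F m * e (-((c : ℝ) * m / N))

theorem inversionF (N : ℕ) (hN : 1 ≤ N) (F : ℕ → ℂ) (x : ℕ) (hx : x < N) :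
    F x = (1 / (N : ℂ)) * ∑ c ∈ range N, hatF N F c * e ((c : ℝ) * x / N) := by
  have hNc : (N : ℂ) ≠ 0 := by exact_mod_cast (by omega : N ≠ 0)
  have h1 : ∑ c ∈ range N, hatF N F c * e ((c : ℝ) * x / N) =
      ∑ m ∈ range N, if m = x then F m * (N : ℂ) else 0 := by
    unfold hatF
    have h2 : ∀ c ∈ range N, (∑ m ∈ range N, F m * e (-((c : ℝ) * m / N))) * e ((c : ℝ) * x / N) =
        ∑ m ∈ range N, F m * e ((c : ℝ) * (((x : ℤ) - m : ℤ) : ℝ) / N) := by
      intro c _
      rw [sum_mul]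
      refine sum_congr rfl fun m _ => ?_
      rw [mul_assoc, ← e_add]
      congr 2
      push_cast
      ring
    rw [sum_congr rfl h2, sum_comm]
    refine sum_congr rfl fun m hm => ?_
    rw [← mul_sum, sum_e N hN]
    have hm' := mem_range.1 hm
    have h3 : ((N : ℤ) ∣ (x : ℤ) - m) ↔ m = x := by
      constructor
      · intro h
        have h4 := Int.eq_zero_of_abs_lt_dvd h (by rw [abs_lt]; constructor <;> omega)
        omega
      · rintro rfl
        simp
    simp only [h3]
    split_ifs <;> simp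
  rw [h1, sum_ite_eq', if_pos (mem_range.2 hx)]
  field_simp

/-- the sum of the Fourier coefficients of an exponential on an initial interval -/
theorem hat_exp (N : ℕ) (hN : 1 ≤ N) (θ β : ℝ) (L : ℕ) (hL : L ≤ N) :
    ∑ c ∈ range N, ‖hatF N (fun m => if m < L then e (β + θ * m) else 0) c‖ ≤
      2 * N * (1 + Real.log N) := by
  refine le_trans (sum_le_sum fun c _ => le_of_eq ?_) (ker N hN (-θ) 0 L hL)
  unfold hatF
  have h1 : ∑ m ∈ range N, (if m < L then e (β + θ * m) else 0) * e (-((c : ℝ) * m / N)) =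
      e β * ∑ m ∈ range L, e (-((-θ + (c : ℝ) / N) * m)) := by
    have h2 : range L = (range N).filter (fun m => m < L) := by
      ext m
      simp only [mem_range, mem_filter]
      omega
    rw [h2, sum_filter, mul_sum]
    refine sum_congr rfl fun m _ => ?_
    split_ifs
    · rw [← e_add, ← e_add]
      congr 1
      ring
    · simp
  rw [h1, norm_mul, norm_e, one_mul, zero_add, ← range_eq_Ico, ← Complex.norm_conj, map_sum]
  congr 1
  refine sum_congr rfl fun m _ => ?_
  rw [conj_e]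
  congr 1
  ring

/-- **the twisted incomplete sums** -/
theorem exp_le (k p : ℕ) (hp : 1 ≤ p) (n : ℕ → Fin k → ℕ)
    (hn : ∀ x < p, ∀ i, n x i < p) (M : ℝ) (hM0 : 0 ≤ M)
    (hM : ∀ c < p, ∀ h : Fin k → ℕ, (∀ i, h i < p) → h ≠ 0 →
      ‖∑ x ∈ range p, e ((c : ℝ) * x / p) * ∏ i, e ((h i : ℝ) * n x i / p)‖ ≤ M)
    (β θ₀ : ℝ) (θ : Fin k → ℝ) (L : ℕ) (hL : L ≤ p) :
    ‖∑ x ∈ range L, e (β + θ₀ * x) * ∏ i, e (θ i * n x i)‖ ≤
      ‖∑ x ∈ range L, e (θ₀ * x)‖ * ∏ i, (‖∑ m ∈ range p, e (θ i * m)‖ / p) +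
        M * (2 * (1 + Real.log p)) ^ (k + 1) := by
  classical
  have hp0 : (0 : ℝ) < p := by exact_mod_cast hp
  have hpc : (p : ℂ) ≠ 0 := by exact_mod_cast (by omega : p ≠ 0)
  set Λ : ℝ := 2 * (1 + Real.log p) with hΛ
  have hΛ0 : 0 ≤ Λ := by
    have := Real.log_nonneg (show (1 : ℝ) ≤ p by exact_mod_cast hp)
    rw [hΛ]
    linarith
  set W : ℕ → ℂ := fun x => if x < L then e (β + θ₀ * x) else 0 with hW
  set G : Fin k → ℕ → ℂ := fun i m => if m < p then e (0 + θ i * m) else 0 with hG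
  have hΛW : ∑ c ∈ range p, ‖hatF p W c‖ ≤ p * Λ := by
    refine (hat_exp p hp θ₀ β L hL).trans (le_of_eq ?_)
    rw [hΛ]
    ring
  have hΛG : ∀ i, ∑ c ∈ range p, ‖hatF p (G i) c‖ ≤ p * Λ := by
    intro i
    refine (hat_exp p hp (θ i) 0 p le_rfl).trans (le_of_eq ?_)
    rw [hΛ]
    ring
  -- the sum over all residues
  have hsum : ∑ x ∈ range L, e (β + θ₀ * x) * ∏ i, e (θ i * n x i) =
      ∑ x ∈ range p, W x * ∏ i, G i (n x i) := by
    have h2 : range L = (range p).filter (fun m => m < L) := by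
      ext m
      simp only [mem_range, mem_filter]
      omega
    rw [h2, sum_filter]
    refine sum_congr rfl fun x hx => ?_
    have hx' := mem_range.1 hx
    have h3 : ∏ i, G i (n x i) = ∏ i, e (θ i * n x i) := by
      refine prod_congr rfl fun i _ => ?_
      rw [hG]
      simp only
      rw [if_pos (hn x hx' i), zero_add]
    rw [h3, hW]
    simp only
    split_ifs
    · rfl
    · rw [zero_mul]
  -- the product of the expansions
  have hprod : ∀ x ∈ range p, ∏ i, G i (n x i) =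
      (1 / (p : ℂ)) ^ k * ∑ h ∈ Fintype.piFinset (fun _ : Fin k => range p),
        ((∏ i, hatF p (G i) (h i)) * ∏ i, e ((h i : ℝ) * n x i / p)) := by
    intro x hx
    have h2 : ∀ i ∈ (univ : Finset (Fin k)), G i (n x i) =
        (1 / (p : ℂ)) * ∑ c ∈ range p, hatF p (G i) c * e ((c : ℝ) * n x i / p) := fun i _ =>
      inversionF p hp (G i) (n x i) (hn x (mem_range.1 hx) i)
    rw [prod_congr rfl h2, prod_mul_distrib, prod_const, card_univ, Fintype.card_fin,
      Finset.prod_univ_sum]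
    congr 1
    exact sum_congr rfl fun h _ => by rw [prod_mul_distrib]
  have hexp : ∑ x ∈ range p, W x * ∏ i, G i (n x i) =
      (1 / (p : ℂ)) ^ k * ∑ h ∈ Fintype.piFinset (fun _ : Fin k => range p),
        ((∏ i, hatF p (G i) (h i)) * ∑ x ∈ range p, W x * ∏ i, e ((h i : ℝ) * n x i / p)) := by
    have h1 : ∀ x ∈ range p, W x * ∏ i, G i (n x i) = (1 / (p : ℂ)) ^ k *
        ∑ h ∈ Fintype.piFinset (fun _ : Fin k => range p),
          ((∏ i, hatF p (G i) (h i)) * (W x * ∏ i, e ((h i : ℝ) * n x i / p))) := by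
      intro x hx
      rw [hprod x hx, mul_left_comm, mul_sum]
      congr 1
      exact sum_congr rfl fun h _ => by ring
    rw [sum_congr rfl h1, ← mul_sum, sum_comm]
    congr 1
    exact sum_congr rfl fun h _ => by rw [mul_sum]
  -- the bound of the other sums
  have hinner : ∀ h ∈ (Fintype.piFinset (fun _ : Fin k => range p)).erase 0,
      ‖∑ x ∈ range p, W x * ∏ i, e ((h i : ℝ) * n x i / p)‖ ≤ M * Λ := by
    intro h hh
    have hh0 := ne_of_mem_erase hh
    have hhp : ∀ i, h i < p := by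
      intro i
      have := Fintype.mem_piFinset.1 (mem_of_mem_erase hh) i
      exact mem_range.1 this
    have h1 : ∑ x ∈ range p, W x * ∏ i, e ((h i : ℝ) * n x i / p) =
        (1 / (p : ℂ)) * ∑ c ∈ range p, hatF p W c *
          ∑ x ∈ range p, e ((c : ℝ) * x / p) * ∏ i, e ((h i : ℝ) * n x i / p) := by
      have h4 : ∀ x ∈ range p, W x * ∏ i, e ((h i : ℝ) * n x i / p) =
          (1 / (p : ℂ)) * ∑ c ∈ range p, hatF p W c * (e ((c : ℝ) * x / p) *
            ∏ i, e ((h i : ℝ) * n x i / p)) := by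
        intro x hx
        rw [inversionF p hp W x (mem_range.1 hx), mul_assoc, sum_mul]
        congr 1
        exact sum_congr rfl fun c _ => by ring
      rw [sum_congr rfl h4, ← mul_sum, sum_comm]
      congr 1
      exact sum_congr rfl fun c _ => by rw [mul_sum]
    rw [h1, norm_mul, norm_div, norm_one, Complex.norm_natCast]
    have h5 : ‖∑ c ∈ range p, hatF p W c *
          ∑ x ∈ range p, e ((c : ℝ) * x / p) * ∏ i, e ((h i : ℝ) * n x i / p)‖ ≤
        ∑ c ∈ range p, ‖hatF p W c‖ * M := by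
      refine (norm_sum_le _ _).trans (sum_le_sum fun c hc => ?_)
      rw [norm_mul]
      exact mul_le_mul_of_nonneg_left (hM c (mem_range.1 hc) h hhp hh0) (norm_nonneg _)
    rw [← sum_mul] at h5
    have h6 : (∑ c ∈ range p, ‖hatF p W c‖) * M ≤ p * Λ * M :=
      mul_le_mul_of_nonneg_right hΛW hM0
    calc 1 / (p : ℝ) * ‖∑ c ∈ range p, hatF p W c *
          ∑ x ∈ range p, e ((c : ℝ) * x / p) * ∏ i, e ((h i : ℝ) * n x i / p)‖
        ≤ 1 / (p : ℝ) * (p * Λ * M) :=
          mul_le_mul_of_nonneg_left (h5.trans h6) (by positivity)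
      _ = M * Λ := by field_simp
  have hMΛ : 0 ≤ M * Λ := mul_nonneg hM0 hΛ0
  -- the zero frequency
  have h0mem : (0 : Fin k → ℕ) ∈ Fintype.piFinset (fun _ : Fin k => range p) := by
    rw [Fintype.mem_piFinset]
    intro i
    exact mem_range.2 (show 0 < p by omega)
  have hzero : ‖(1 / (p : ℂ)) ^ k * ((∏ i, hatF p (G i) ((0 : Fin k → ℕ) i)) *
      ∑ x ∈ range p, W x * ∏ i, e ((((0 : Fin k → ℕ) i : ℕ) : ℝ) * n x i / p))‖ =
      ‖∑ x ∈ range L, e (θ₀ * x)‖ * ∏ i, (‖∑ m ∈ range p, e (θ i * m)‖ / p) := by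
    have h1 : ∀ i ∈ (univ : Finset (Fin k)), hatF p (G i) ((0 : Fin k → ℕ) i) =
        ∑ m ∈ range p, e (θ i * m) := by
      intro i _
      unfold hatF
      refine sum_congr rfl fun m hm => ?_
      rw [hG]
      simp only [if_pos (mem_range.1 hm), Pi.zero_apply, Nat.cast_zero, zero_mul, zero_div,
        neg_zero, e_zero, mul_one, zero_add]
    have h2 : ∑ x ∈ range p, W x * ∏ i, e ((((0 : Fin k → ℕ) i : ℕ) : ℝ) * n x i / p) =
        e β * ∑ x ∈ range L, e (θ₀ * x) := by
      have h2 : range L = (range p).filter (fun m => m < L) := by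
        ext m
        simp only [mem_range, mem_filter]
        omega
      rw [h2, sum_filter, mul_sum]
      refine sum_congr rfl fun x _ => ?_
      rw [hW]
      simp only [Pi.zero_apply, Nat.cast_zero, zero_mul, zero_div, e_zero, prod_const_one, mul_one]
      split_ifs
      · rw [e_add]
      · rw [mul_zero]
    rw [prod_congr rfl h1, h2, norm_mul, norm_pow, norm_div, norm_one, Complex.norm_natCast,
      norm_mul, norm_mul, norm_e, one_mul, norm_prod, prod_div_distrib, prod_const, card_univ,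
      Fintype.card_fin]
    rw [one_div, inv_pow]
    field_simp
  rw [hsum, hexp, ← add_sum_erase _ _ h0mem, mul_add]
  refine (norm_add_le _ _).trans (add_le_add hzero.le ?_)
  rw [norm_mul, norm_pow, norm_div, norm_one, Complex.norm_natCast]
  have h7 : ‖∑ h ∈ (Fintype.piFinset (fun _ : Fin k => range p)).erase 0,
        ((∏ i, hatF p (G i) (h i)) * ∑ x ∈ range p, W x * ∏ i, e ((h i : ℝ) * n x i / p))‖ ≤
      ∑ h ∈ Fintype.piFinset (fun _ : Fin k => range p), (∏ i, ‖hatF p (G i) (h i)‖) * (M * Λ) := by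
    refine (norm_sum_le _ _).trans ?_
    refine le_trans (sum_le_sum (g := fun h => (∏ i, ‖hatF p (G i) (h i)‖) * (M * Λ))
      fun h hh => ?_) ?_
    · rw [norm_mul, norm_prod]
      exact mul_le_mul_of_nonneg_left (hinner h hh) (prod_nonneg fun i _ => norm_nonneg _)
    · refine sum_le_sum_of_subset_of_nonneg (erase_subset _ _) fun h _ _ => ?_
      exact mul_nonneg (prod_nonneg fun i _ => norm_nonneg _) hMΛ
  rw [← sum_mul] at h7
  have h9 : ∑ h ∈ Fintype.piFinset (fun _ : Fin k => range p), (∏ i, ‖hatF p (G i) (h i)‖) =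
      ∏ i, ∑ j ∈ range p, ‖hatF p (G i) j‖ :=
    (Finset.prod_univ_sum (fun _ : Fin k => range p) (fun i j => ‖hatF p (G i) j‖)).symm
  rw [h9] at h7
  have h8 : ∏ i, ∑ j ∈ range p, ‖hatF p (G i) j‖ ≤ (p * Λ) ^ k := by
    refine (prod_le_prod (fun i _ => sum_nonneg fun c _ => norm_nonneg _)
      (fun i _ => hΛG i)).trans (le_of_eq ?_)
    rw [prod_const, card_univ, Fintype.card_fin]
  calc (1 / (p : ℝ)) ^ k * ‖∑ h ∈ (Fintype.piFinset (fun _ : Fin k => range p)).erase 0,
        ((∏ i, hatF p (G i) (h i)) * ∑ x ∈ range p, W x * ∏ i, e ((h i : ℝ) * n x i / p))‖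
      ≤ (1 / (p : ℝ)) ^ k * ((p * Λ) ^ k * (M * Λ)) := by
        refine mul_le_mul_of_nonneg_left (h7.trans ?_) (by positivity)
        exact mul_le_mul_of_nonneg_right h8 hMΛ
    _ = M * Λ ^ (k + 1) := by
        rw [mul_pow, one_div, inv_pow, pow_succ]
        field_simp

end Pool.Agent.J4.H39.RM
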