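import Pool.Agent.J4.H39.RM.Seq

/-! # Modular inverses of consecutive integers -/

set_option autoImplicit false

namespace Pool.Agent.J4.H39.RM

open Finset Filter Polynomial
open Pool.Agent.N141.SG

variable (p k : ℕ)

/-- the poles -/
def poleSet : Finset (ZMod p) := univ.image (fun i : Fin k => -((i : ℕ) : ZMod p))

/-- the residues -/
def resid (i : Fin k) (b : ZMod p) : ZMod p := if b = -((i : ℕ) : ZMod p) then 1 else 0

theorem value_inv (i : Fin k) (x : ZMod p) :
    (0 : (ZMod p)[X]).eval x + ∑ b ∈ poleSet p k, resid p k i b * (x - b)⁻¹ =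
      (x + ((i : ℕ) : ZMod p))⁻¹ := by
  classical
  have h1 : -((i : ℕ) : ZMod p) ∈ poleSet p k := mem_image_of_mem _ (mem_univ i)
  rw [eval_zero, zero_add]
  unfold resid
  simp only [ite_mul, one_mul, zero_mul]
  rw [sum_ite_eq' (poleSet p k) (-((i : ℕ) : ZMod p)) (fun b => (x - b)⁻¹), if_pos h1,
    sub_neg_eq_add]

theorem card_poleSet : (poleSet p k).card ≤ k := by
  refine card_image_le.trans ?_
  rw [card_univ, Fintype.card_fin]

theorem ind_inv (hk : k ≤ p) (h : Fin k → ZMod p) (hh : h ≠ 0) :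
    (∃ b ∈ poleSet p k, ∑ i, h i * resid p k i b ≠ 0) ∨
      2 ≤ (∑ i, C (h i) * (0 : (ZMod p)[X])).natDegree := by
  classical
  left
  obtain ⟨i, hi⟩ : ∃ i, h i ≠ 0 := by
    by_contra hcon
    push Not at hcon
    exact hh (funext hcon)
  refine ⟨-((i : ℕ) : ZMod p), mem_image_of_mem _ (mem_univ i), ?_⟩
  rw [sum_eq_single i]
  · unfold resid
    rw [if_pos rfl, mul_one]
    exact hi
  · intro j _ hj
    unfold resid
    rw [if_neg, mul_zero]
    intro h0
    have h1 : ((i : ℕ) : ZMod p) = ((j : ℕ) : ZMod p) := neg_injective h0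
    have h2 := (ZMod.natCast_eq_natCast_iff' _ _ p).1 h1
    rw [Nat.mod_eq_of_lt (i.2.trans_le hk), Nat.mod_eq_of_lt (j.2.trans_le hk)] at h2
    exact hj (Fin.ext h2.symm)
  · intro h0
    exact absurd (mem_univ i) h0

theorem not_mem_poleSet {x : ℕ} (hx : (x : ZMod p) ∉ poleSet p k) (i : Fin k) :
    ¬ p ∣ x + i := by
  intro h0
  apply hx
  have h1 : ((x + i : ℕ) : ZMod p) = 0 := (ZMod.natCast_eq_zero_iff _ _).2 h0
  rw [Nat.cast_add] at h1
  have h2 : (x : ZMod p) = -((i : ℕ) : ZMod p) := eq_neg_of_add_eq_zero_left h1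
  rw [h2]
  exact mem_image_of_mem _ (mem_univ i)

end Pool.Agent.J4.H39.RM
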