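import Pool.Agent.N141.SG.Seq1

/-! # Several multiplicities at the same time -/

set_option autoImplicit false

namespace Pool.Agent.J4.H39.RM

open Finset Filter
open Pool.Agent.H469R2.NK (e norm_e e_add)
open Pool.Agent.N141.SG

/-- all radicands at once along several sequences of integers -/
theorem tgt_joint {n : ℕ} (hn : 1 ≤ n) {s : ℕ → Finset ℕ} {v : Fin n → ℕ → ℤ}
    (h : ∀ θ : Fin n → ℝ, (∀ i, θ i = 0 ∨ Freq (θ i)) → θ ≠ 0 →
      SmallTo s (fun t => ∑ i, θ i * v i t)) : ∀ᶠ N : ℕ in atTop,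
      1 / 10000 ^ (20 * n + 1) * ((s N).card : ℝ) ≤
        ({t : ℕ | t ∈ s N ∧ ∀ i, Tgt (v i t)}.ncard : ℝ) := by
  classical
  set φ : Fin n × Fin 20 ≃ Fin (n * 20) := finProdFinEquiv with hφ
  have h1 := boxesR (r := n * 20) (by omega) (s := s)
    (x := fun t j => √(rad (φ.symm j).2.succ : ℝ) * v (φ.symm j).1 t + √(rad (φ.symm j).2.succ : ℝ) / 2)
    (by
      intro g hg
      set θ : Fin n → ℝ := fun i => ∑ j : Fin 20, (g (φ (i, j)) : ℝ) * √(rad j.succ : ℝ) with hθ
      have hθ0 : ∀ i, θ i = 0 ∨ Freq (θ i) := by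
        intro i
        by_cases hi : (fun j : Fin 20 => g (φ (i, j))) = 0
        · left
          rw [hθ]
          refine Finset.sum_eq_zero fun j _ => ?_
          have := congrFun hi j
          simp only [Pi.zero_apply] at this
          rw [this]
          simp
        · right
          exact freq_of hi
      have hθn : θ ≠ 0 := by
        intro h0
        apply hg
        funext j
        obtain ⟨⟨i, l⟩, rfl⟩ := φ.surjective j
        by_contra hne
        have hi : (fun j : Fin 20 => g (φ (i, j))) ≠ 0 := fun h1 => hne (congrFun h1 l)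
        have h2 : Freq (θ i) := freq_of hi
        rw [h0] at h2
        exact h2.1 ⟨0, by simp⟩
      have h2 := (h θ hθ0 hθn).add_const
        (∑ i : Fin n, ∑ j : Fin 20, (g (φ (i, j)) : ℝ) * (√(rad j.succ : ℝ) / 2))
      have e1 : (fun t : ℕ => ∑ j, (g j : ℝ) * (√(rad (φ.symm j).2.succ : ℝ) * v (φ.symm j).1 t +
          √(rad (φ.symm j).2.succ : ℝ) / 2)) = fun t : ℕ => ∑ i, θ i * v i t +
            ∑ i : Fin n, ∑ j : Fin 20, (g (φ (i, j)) : ℝ) * (√(rad j.succ : ℝ) / 2) := by
        funext t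
        rw [← Equiv.sum_comp φ, Fintype.sum_prod_type, ← sum_add_distrib]
        refine sum_congr rfl fun i _ => ?_
        simp only [Equiv.symm_apply_apply]
        rw [hθ]
        simp only
        rw [sum_mul, ← sum_add_distrib]
        exact sum_congr rfl fun j _ => by ring
      rw [e1]
      exact h2) (q := 10000) (by norm_num)
    (δ := 1 / 10000 ^ (n * 20) - 1 / 10000 ^ (20 * n + 1)) (by
      rw [sub_pos]
      apply one_div_lt_one_div_of_lt (by positivity)
      exact pow_lt_pow_right₀ (by norm_num) (by omega))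
  filter_upwards [h1] with N hN
  have h2 := hN (fun j => cell (φ.symm j).2.succ)
  have e1 : (1 / ((10000 : ℕ) : ℝ) ^ (n * 20) -
      (1 / 10000 ^ (n * 20) - 1 / 10000 ^ (20 * n + 1))) = 1 / 10000 ^ (20 * n + 1) := by
    push_cast
    ring
  rw [e1] at h2
  refine h2.trans ?_
  rw [← Set.ncard_coe_finset]
  have hfin : {t : ℕ | t ∈ s N ∧ ∀ i, Tgt (v i t)}.Finite :=
    (Finset.finite_toSet (s N)).subset fun m hm => hm.1
  have hsub : (((s N).filter (fun t : ℕ => ∀ j : Fin (n * 20), ((10000 : ℕ) : ℤ) ∣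
      ⌊((10000 : ℕ) : ℝ) * (√(rad (φ.symm j).2.succ : ℝ) * v (φ.symm j).1 t +
        √(rad (φ.symm j).2.succ : ℝ) / 2)⌋ -
        cell (φ.symm j).2.succ) : Finset ℕ) : Set ℕ) ⊆ {t : ℕ | t ∈ s N ∧ ∀ i, Tgt (v i t)} := by
    intro t ht
    rw [Finset.mem_coe, Finset.mem_filter] at ht
    refine ⟨ht.1, fun i j hj => ?_⟩
    have hj0 : j ≠ 0 := fun h0 => hj (by rw [h0]; rfl)
    obtain ⟨l, rfl⟩ := Fin.exists_succ_eq.2 hj0
    have h3 := ht.2 (φ (i, l))
    rw [Equiv.symm_apply_apply] at h3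
    obtain ⟨z, h5, h6⟩ := of_dvd h3
    refine ⟨z, ?_, ?_⟩
    · refine le_trans ?_ h5
      apply div_le_div_of_nonneg_right _ (by norm_num)
      linarith
    · exact h6.le
  exact_mod_cast Set.ncard_le_ncard hsub hfin

/-- the target does not contain zero -/
theorem not_tgt_zero : ¬ Tgt 0 := by
  intro h
  obtain ⟨z, h1, h2⟩ := h 1 (by decide)
  have hr : rad 1 = 2 := rfl
  have hc : cell 1 = 350 := rfl
  rw [hr, hc] at h1 h2
  push_cast at h1 h2
  have h3 : (1.41 : ℝ) ≤ √2 := by
    rw [Real.le_sqrt (by norm_num) (by norm_num)]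
    norm_num
  have h4 : √2 ≤ (1.42 : ℝ) := by
    rw [Real.sqrt_le_left (by norm_num)]
    norm_num
  rcases lt_or_ge z 1 with h5 | h5
  · have h6 : z ≤ 0 := by omega
    have h7 : (z : ℝ) ≤ 0 := by exact_mod_cast h6
    norm_num at h2
    linarith
  · have h7 : (1 : ℝ) ≤ z := by exact_mod_cast h5
    norm_num at h1
    linarith

end Pool.Agent.J4.H39.RM
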