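import Pool.Agent.N141.SG.Seq5
import Pool.Agent.J4.H39.WR.Final
import Pool.Agent.J4.H39.RM.Joint
import Pool.Agent.J4.H39.RM.Exp

/-! # Residues of rational functions as multiplicities -/

set_option autoImplicit false

namespace Pool.Agent.J4.H39.RM

open Finset Filter Polynomial
open Pool.Agent.N141.SG
open Pool.Agent.J4.H39.WR (val)
open Pool.Agent.Helper170.Weyl (e e_add norm_e)

theorem e_eq (x : ℝ) : Pool.Agent.H469R2.NK.e x = e x := by
  unfold Pool.Agent.H469R2.NK.e Pool.Agent.Helper170.Weyl.e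
  congr 1
  push_cast
  ring

theorem e_sum {ι : Type} (s : Finset ι) (f : ι → ℝ) : e (∑ i ∈ s, f i) = ∏ i ∈ s, e (f i) := by
  classical
  induction s using Finset.induction_on with
  | empty => simp [Pool.Agent.N286.DE.e_zero]
  | insert i s hi ih => rw [sum_insert hi, prod_insert hi, e_add, ih]

/-- rational functions modulo a prime and an interval -/
structure Data (k d : ℕ) (δ : ℝ) where
  p : ℕ
  prime : p.Prime
  P : Fin k → (ZMod p)[X]
  B : Finset (ZMod p)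
  H : Fin k → ZMod p → ZMod p
  degP : ∀ i, (P i).natDegree ≤ d
  cardB : B.card ≤ d
  ind : ∀ h : Fin k → ZMod p, h ≠ 0 →
      (∃ b ∈ B, ∑ i, h i * H i b ≠ 0) ∨ 2 ≤ (∑ i, C (h i) * P i).natDegree
  a : ℕ
  L : ℕ
  L_le : L ≤ p
  le_L : (p : ℝ) ^ (1 / 2 + δ) ≤ L

namespace Data

variable {k d : ℕ} {δ : ℝ}

/-- the values -/
def n (D : Data k d δ) (i : Fin k) (x : ℕ) : ℕ :=
  (val D.p (D.P i) D.B (D.H i) (x : ZMod D.p)).val

/-- the argument and the values -/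
def w (D : Data k d δ) : Fin (k + 1) → ℕ → ℕ := Fin.cons (fun x => x) D.n

/-- the members of the interval which are not poles -/
def I (D : Data k d δ) : Finset ℕ := (Ico D.a (D.a + D.L)).filter fun x : ℕ => (x : ZMod D.p) ∉ D.B

theorem mem_I (D : Data k d δ) (x : ℕ) :
    x ∈ D.I ↔ D.a ≤ x ∧ x < D.a + D.L ∧ (x : ZMod D.p) ∉ D.B := by
  unfold I
  rw [mem_filter, mem_Ico, and_assoc]

theorem poles (D : Data k d δ) :
    ((Ico D.a (D.a + D.L)).filter fun x : ℕ => (x : ZMod D.p) ∈ D.B).card ≤ d := by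
  refine le_trans ?_ D.cardB
  refine card_le_card_of_injOn (fun x : ℕ => (x : ZMod D.p)) (fun x hx => ?_) ?_
  · rw [coe_filter] at hx
    exact hx.2
  · intro x hx y hy hxy
    rw [coe_filter] at hx hy
    have hx1 := mem_Ico.1 hx.1
    have hy1 := mem_Ico.1 hy.1
    have hL := D.L_le
    have h6 := (ZMod.natCast_eq_natCast_iff' x y D.p).1 hxy
    obtain ⟨t, ht⟩ := Nat.modEq_iff_dvd.1 h6
    have hk0 : t = 0 := by
      have h8 : |(y : ℤ) - x| < D.p := by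
        rw [abs_lt]
        constructor <;> omega
      by_contra hk0
      have h9 : (1 : ℤ) ≤ |t| := Int.one_le_abs hk0
      rw [ht, abs_mul, Nat.abs_cast] at h8
      have : (D.p : ℤ) * 1 ≤ D.p * |t| := mul_le_mul_of_nonneg_left h9 (by positivity)
      linarith
    rw [hk0, mul_zero] at ht
    omega

theorem card_I (D : Data k d δ) : D.L ≤ D.I.card + d := by
  have h1 := card_filter_add_card_filter_not (s := Ico D.a (D.a + D.L))
    (fun x : ℕ => (x : ZMod D.p) ∈ D.B)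
  rw [Nat.card_Ico] at h1
  have h2 := D.poles
  have h3 : D.I = (Ico D.a (D.a + D.L)).filter fun x : ℕ => ¬ (x : ZMod D.p) ∈ D.B := rfl
  rw [h3]
  omega

theorem card_I_le (D : Data k d δ) : D.I.card ≤ D.L := by
  refine (card_filter_le _ _).trans ?_
  rw [Nat.card_Ico]
  omega

/-- the exponential sums over the interval -/
theorem sum_le (D : Data k d δ) (hd : d + 1 < D.p) (θ : Fin (k + 1) → ℝ) {K : ℝ} (hK : 0 ≤ K)
    (hKθ : ∀ i, θ i ≠ 0 → ∀ L : ℕ, ‖∑ x ∈ range L, e (θ i * x)‖ ≤ K) (hθ : θ ≠ 0) :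
    ‖∑ x ∈ D.I, e (∑ i, θ i * D.w i x)‖ ≤ K + d +
      4 * (d + 1 : ℕ) * Real.sqrt D.p * (2 * (1 + Real.log D.p)) ^ (k + 1) := by
  classical
  have : Fact D.p.Prime := ⟨D.prime⟩
  have hp0 : (0 : ℝ) < D.p := by exact_mod_cast D.prime.pos
  have hpole : ‖∑ x ∈ (Ico D.a (D.a + D.L)).filter (fun x : ℕ => (x : ZMod D.p) ∈ D.B),
      e (∑ i, θ i * D.w i x)‖ ≤ d := by
    refine (norm_sum_le _ _).trans ?_
    rw [sum_congr rfl (fun x _ => norm_e _), sum_const, nsmul_eq_mul, mul_one]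
    exact_mod_cast D.poles
  have hsplit : ∑ x ∈ D.I, e (∑ i, θ i * D.w i x) = ∑ x ∈ Ico D.a (D.a + D.L),
      e (∑ i, θ i * D.w i x) - ∑ x ∈ (Ico D.a (D.a + D.L)).filter
        (fun x : ℕ => (x : ZMod D.p) ∈ D.B), e (∑ i, θ i * D.w i x) := by
    rw [eq_sub_iff_add_eq, add_comm]
    exact sum_filter_add_sum_filter_not _ _ _
  rw [hsplit]
  refine (norm_sub_le _ _).trans ?_
  have hmain := exp_le k D.p D.prime.one_le (fun y i => D.n i (D.a + y))
    (fun y _ i => ZMod.val_lt _) (4 * (d + 1 : ℕ) * Real.sqrt D.p) (by positivity)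
    (fun c _ h hhp hh => WR.sum_le D.P D.B D.H (d + 1) (by omega) hd
      (fun i => (D.degP i).trans (by omega)) (D.cardB.trans (by omega)) D.ind D.a c h hhp hh)
    (θ 0 * D.a) (θ 0) (fun i => θ i.succ) D.L D.L_le
  have hsum : ∑ x ∈ Ico D.a (D.a + D.L), e (∑ i, θ i * D.w i x) =
      ∑ x ∈ range D.L, e (θ 0 * D.a + θ 0 * x) * ∏ i : Fin k, e (θ i.succ * D.n i (D.a + x)) := by
    rw [sum_Ico_eq_sum_range, Nat.add_sub_cancel_left]
    refine sum_congr rfl fun x _ => ?_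
    rw [← e_sum, ← e_add]
    congr 1
    rw [Fin.sum_univ_succ]
    unfold w
    simp only [Fin.cons_zero, Fin.cons_succ]
    push_cast
    ring
  rw [hsum]
  -- the main term
  have hfac : ∀ i : Fin k, ‖∑ m ∈ range D.p, e (θ i.succ * m)‖ / D.p ≤ 1 := by
    intro i
    rw [div_le_one hp0]
    refine (norm_sum_le _ _).trans ?_
    rw [sum_congr rfl (fun x _ => norm_e _), sum_const, nsmul_eq_mul, mul_one, card_range]
  have hfac0 : ∀ i : Fin k, 0 ≤ ‖∑ m ∈ range D.p, e (θ i.succ * m)‖ / D.p := fun i => by positivity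
  have hfirst : ‖∑ x ∈ range D.L, e (θ 0 * x)‖ ≤ D.p := by
    refine (norm_sum_le _ _).trans ?_
    rw [sum_congr rfl (fun x _ => norm_e _), sum_const, nsmul_eq_mul, mul_one, card_range]
    exact_mod_cast D.L_le
  have hmt : ‖∑ x ∈ range D.L, e (θ 0 * x)‖ *
      ∏ i : Fin k, (‖∑ m ∈ range D.p, e (θ i.succ * m)‖ / D.p) ≤ K := by
    obtain ⟨i₀, hi₀⟩ : ∃ i, θ i ≠ 0 := by
      by_contra hcon
      push Not at hcon
      exact hθ (funext hcon)
    refine Fin.cases (fun h0 => ?_) (fun i h0 => ?_) i₀ hi₀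
    · have h1 : ∏ i : Fin k, (‖∑ m ∈ range D.p, e (θ i.succ * m)‖ / D.p) ≤ 1 :=
        prod_le_one (fun i _ => hfac0 i) fun i _ => hfac i
      calc _ ≤ K * 1 := mul_le_mul (hKθ 0 h0 D.L) h1 (prod_nonneg fun i _ => hfac0 i) hK
        _ = K := mul_one K
    · have h1 : ∏ i : Fin k, (‖∑ m ∈ range D.p, e (θ i.succ * m)‖ / D.p) ≤ K / D.p := by
        rw [← mul_prod_erase univ _ (mem_univ i)]
        have h2 : ∏ j ∈ univ.erase i, (‖∑ m ∈ range D.p, e (θ j.succ * m)‖ / D.p) ≤ 1 :=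
          prod_le_one (fun i _ => hfac0 i) fun i _ => hfac i
        have h3 : ‖∑ m ∈ range D.p, e (θ i.succ * m)‖ / D.p ≤ K / D.p :=
          div_le_div_of_nonneg_right (hKθ _ h0 D.p) hp0.le
        calc _ ≤ K / D.p * 1 := mul_le_mul h3 h2 (prod_nonneg fun i _ => hfac0 i) (by positivity)
          _ = K / D.p := mul_one _
      calc _ ≤ (D.p : ℝ) * (K / D.p) :=
            mul_le_mul hfirst h1 (prod_nonneg fun i _ => hfac0 i) hp0.le
        _ = K := by field_simp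
  linarith [hmain, hmt, hpole]

end Data

variable {k d : ℕ} {δ : ℝ}

/-- the index sets -/
def sD (D : ℕ → Data k d δ) (N : ℕ) : Finset ℕ := (D N).I.image (Nat.pair N)

/-- the sequences -/
def vD (D : ℕ → Data k d δ) (i : Fin (k + 1)) (t : ℕ) : ℤ :=
  ((D t.unpair.1).w i t.unpair.2 : ℕ)

theorem pair_inj (N : ℕ) : Function.Injective (Nat.pair N) := by
  intro x y h
  have := congrArg (fun t => (Nat.unpair t).2) h
  simpa using this

theorem card_sD (D : ℕ → Data k d δ) (N : ℕ) : (sD D N).card = (D N).I.card :=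
  card_image_of_injective _ (pair_inj N)

theorem vD_pair (D : ℕ → Data k d δ) (i : Fin (k + 1)) (N x : ℕ) :
    vD D i (Nat.pair N x) = ((D N).w i x : ℕ) := by
  unfold vD
  rw [Nat.unpair_pair]

/-- the error terms are small -/
theorem ev_small (k d : ℕ) {δ : ℝ} (hδ : 0 < δ) (K : ℝ) (hK : 0 ≤ K) {ε : ℝ} (hε : 0 < ε) :
    ∀ᶠ x : ℝ in atTop, K + d + 4 * (d + 1 : ℕ) * Real.sqrt x * (2 * (1 + Real.log x)) ^ (k + 1) ≤
      ε * (x ^ (1 / 2 + δ) - d) := by
  have hδ' : 0 < δ / (4 * (k + 1)) := by positivity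
  have hlog : ∀ᶠ x : ℝ in atTop, Real.log x ≤ x ^ (δ / (4 * (k + 1))) := by
    have h1 := (isLittleO_log_rpow_atTop hδ').bound (show (0 : ℝ) < 1 by norm_num)
    filter_upwards [h1, eventually_ge_atTop 1] with x hx hx1
    rw [Real.norm_of_nonneg (Real.log_nonneg hx1), Real.norm_of_nonneg (by positivity), one_mul]
      at hx
    exact hx
  filter_upwards [hlog, eventually_ge_atTop 1,
    (tendsto_rpow_atTop hδ').eventually_ge_atTop 4,
    (tendsto_rpow_atTop (show 0 < δ / 2 by positivity)).eventually_ge_atTop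
      ((K + d + ε * d + 4 * (d + 1 : ℕ)) / ε)] with x h1 hx1 h4 h2
  have hx0 : 0 < x := by linarith
  have hd0 : (0 : ℝ) ≤ d := Nat.cast_nonneg _
  have h3 : 2 * (1 + Real.log x) ≤ x ^ (δ / (2 * (k + 1))) := by
    have e1 : x ^ (δ / (2 * (k + 1))) = x ^ (δ / (4 * (k + 1))) * x ^ (δ / (4 * (k + 1))) := by
      rw [← Real.rpow_add hx0]
      congr 1
      field_simp
      ring
    rw [e1]
    nlinarith
  have h5 : (2 * (1 + Real.log x)) ^ (k + 1) ≤ x ^ (δ / 2) := by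
    have h6 : 0 ≤ 2 * (1 + Real.log x) := by
      have := Real.log_nonneg hx1
      linarith
    refine (pow_le_pow_left₀ h6 h3 (k + 1)).trans (le_of_eq ?_)
    rw [← Real.rpow_natCast, ← Real.rpow_mul hx0.le]
    congr 1
    push_cast
    field_simp
  have hs : Real.sqrt x = x ^ (1 / 2 : ℝ) := Real.sqrt_eq_rpow x
  have hs1 : 1 ≤ Real.sqrt x := by
    rw [Real.one_le_sqrt]
    exact hx1
  have hy1 : 1 ≤ x ^ (δ / 2) := Real.one_le_rpow hx1 (by positivity)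
  have he : x ^ (1 / 2 + δ) = Real.sqrt x * x ^ (δ / 2) * x ^ (δ / 2) := by
    rw [hs, ← Real.rpow_add hx0, ← Real.rpow_add hx0]
    congr 1
    ring
  rw [div_le_iff₀ hε] at h2
  have h7 : 1 ≤ Real.sqrt x * x ^ (δ / 2) := by nlinarith
  have h8 : 4 * (d + 1 : ℕ) * Real.sqrt x * (2 * (1 + Real.log x)) ^ (k + 1) ≤
      4 * (d + 1 : ℕ) * (Real.sqrt x * x ^ (δ / 2)) := by
    have : 4 * (d + 1 : ℕ) * Real.sqrt x * (2 * (1 + Real.log x)) ^ (k + 1) ≤
        4 * (d + 1 : ℕ) * Real.sqrt x * x ^ (δ / 2) :=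
      mul_le_mul_of_nonneg_left h5 (by positivity)
    linarith
  rw [he]
  have h9 : (K + d + ε * d + 4 * (d + 1 : ℕ)) * (Real.sqrt x * x ^ (δ / 2)) ≤
      (x ^ (δ / 2) * ε) * (Real.sqrt x * x ^ (δ / 2)) :=
    mul_le_mul_of_nonneg_right h2 (by positivity)
  have h10 : K + d + ε * d ≤ (K + d + ε * d) * (Real.sqrt x * x ^ (δ / 2)) :=
    le_mul_of_one_le_right (by positivity) h7
  linarith

/-- **the sums along a sequence of rational functions and intervals** -/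
theorem small_seq (hδ : 0 < δ) (D : ℕ → Data k d δ) (hD : ∀ N, N ≤ (D N).p)
    (θ : Fin (k + 1) → ℝ) (h0 : ∀ i, θ i = 0 ∨ Irrational (θ i)) (hθ : θ ≠ 0) :
    SmallTo (sD D) (fun t => ∑ i, θ i * vD D i t) := by
  classical
  set K : ℝ := ∑ i, 2 / ‖Pool.Agent.H469R2.NK.e (θ i) - 1‖ with hKdef
  have hK0 : 0 ≤ K := sum_nonneg fun i _ => by positivity
  have hKθ : ∀ i, θ i ≠ 0 → ∀ L : ℕ, ‖∑ x ∈ range L, e (θ i * x)‖ ≤ K := by
    intro i hi L
    have hirr : Irrational (θ i) := (h0 i).resolve_left hi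
    have hint : ∀ z : ℤ, θ i ≠ z := fun z hz => hirr ⟨z, by rw [hz]; simp⟩
    have h1 := geo_le hint 0 L
    simp only [zero_add, e_eq] at h1
    refine h1.trans ?_
    rw [hKdef]
    have h2 := single_le_sum (f := fun i => 2 / ‖Pool.Agent.H469R2.NK.e (θ i) - 1‖)
      (fun j _ => by positivity) (mem_univ i)
    simp only [e_eq] at h2 ⊢
    exact h2
  intro ε hε
  have htend : Tendsto (fun N => ((D N).p : ℝ)) atTop atTop :=
    tendsto_natCast_atTop_atTop.comp (tendsto_atTop_mono hD tendsto_id)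
  filter_upwards [htend.eventually (ev_small k d hδ K hK0 hε), eventually_ge_atTop (d + 2)]
    with N hN hNd
  have hdp : d + 1 < (D N).p := by
    have := hD N
    omega
  rw [card_sD]
  have h1 : ∑ t ∈ sD D N, Pool.Agent.H469R2.NK.e (∑ i, θ i * vD D i t) =
      ∑ x ∈ (D N).I, e (∑ i, θ i * (D N).w i x) := by
    unfold sD
    rw [sum_image fun x _ y _ h => pair_inj N h]
    refine sum_congr rfl fun x _ => ?_
    rw [e_eq]
    congr 1
    refine sum_congr rfl fun i _ => ?_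
    rw [vD_pair]
    push_cast
    rfl
  rw [h1]
  refine ((D N).sum_le hdp θ hK0 hKθ hθ).trans (hN.trans ?_)
  refine mul_le_mul_of_nonneg_left ?_ hε.le
  have h2 : ((D N).L : ℝ) ≤ (D N).I.card + d := by exact_mod_cast (D N).card_I
  linarith [(D N).le_L]

theorem algSmall_seq (hδ : 0 < δ) (D : ℕ → Data k d δ) (hD : ∀ N, N ≤ (D N).p)
    (i : Fin (k + 1)) : AlgSmall (sD D) (vD D i) := by
  classical
  intro θ hθ _
  have hθ0 : θ ≠ 0 := fun h => hθ ⟨0, by simp [h]⟩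
  have h1 := small_seq hδ D hD (fun j => if j = i then θ else 0) (fun j => by
    by_cases hj : j = i
    · right
      simpa [hj] using hθ
    · left
      simp [hj]) (by
    intro h
    have := congrFun h i
    simp at this
    exact hθ0 this)
  have e1 : (fun t => ∑ j, (if j = i then θ else 0) * (vD D j t : ℝ)) = fun t => θ * vD D i t := by
    funext t
    simp
  rw [e1] at h1
  exact h1

/-- passing to counts -/
theorem ncard_sD (D : ℕ → Data k d δ) (N : ℕ) (Q : ℕ → Prop) :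
    {t : ℕ | t ∈ sD D N ∧ Q t}.ncard = {x : ℕ | x ∈ (D N).I ∧ Q (Nat.pair N x)}.ncard := by
  rw [← Set.ncard_image_of_injective {x : ℕ | x ∈ (D N).I ∧ Q (Nat.pair N x)} (pair_inj N)]
  congr 1
  ext t
  constructor
  · rintro ⟨h1, h2⟩
    obtain ⟨x, hx, rfl⟩ := mem_image.1 h1
    exact ⟨x, ⟨hx, h2⟩, rfl⟩
  · rintro ⟨x, ⟨h1, h2⟩, rfl⟩
    exact ⟨mem_image_of_mem _ h1, h2⟩

/-- **all numbers of points, all multiplicities at once** -/
theorem joint (k d : ℕ) {δ : ℝ} (hδ : 0 < δ) : ∃ p₀ : ℕ, ∀ D : Data k d δ, p₀ ≤ D.p →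
    1 / 10000 ^ (20 * (k + 1) + 2) * (D.L : ℝ) ≤
      ({x : ℕ | x ∈ D.I ∧ ∀ i, Tgt (D.w i x : ℕ)}.ncard : ℝ) := by
  classical
  by_contra hcon
  push Not at hcon
  choose D hD hlt using hcon
  have h1 := tgt_joint (n := k + 1) (by omega) (s := sD D) (v := vD D)
    (fun θ h0 hθ => small_seq hδ D hD θ (fun i => (h0 i).imp_right fun h => h.1) hθ)
  have htend : Tendsto (fun N => ((D N).p : ℝ)) atTop atTop :=
    tendsto_natCast_atTop_atTop.comp (tendsto_atTop_mono hD tendsto_id)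
  have h2 : ∀ᶠ N in atTop, 2 * ((d : ℝ) + 1) ≤ ((D N).p : ℝ) ^ (1 / 2 + δ) :=
    htend.eventually ((tendsto_rpow_atTop (show 0 < 1 / 2 + δ by positivity)).eventually_ge_atTop _)
  obtain ⟨N, hN, hN2⟩ := (h1.and h2).exists
  rw [card_sD, ncard_sD] at hN
  simp only [vD_pair] at hN
  have h3 : ((D N).L : ℝ) ≤ (D N).I.card + d := by exact_mod_cast (D N).card_I
  have h4 := (D N).le_L
  have h5 : ((D N).L : ℝ) / 10000 ≤ (D N).I.card := by linarith
  have h6 : 1 / 10000 ^ (20 * (k + 1) + 2) * ((D N).L : ℝ) =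
      1 / 10000 ^ (20 * (k + 1) + 1) * (((D N).L : ℝ) / 10000) := by
    rw [show 20 * (k + 1) + 2 = (20 * (k + 1) + 1) + 1 by ring, pow_succ]
    field_simp
  have h7 : 1 / 10000 ^ (20 * (k + 1) + 1) * (((D N).L : ℝ) / 10000) ≤
      1 / 10000 ^ (20 * (k + 1) + 1) * ((D N).I.card : ℝ) :=
    mul_le_mul_of_nonneg_left h5 (by positivity)
  have h8 := hlt N
  rw [h6] at h8
  linarith

theorem badU_nonneg {n : ℕ} (hn : 10 ≤ n) : 0 ≤ badU n := by
  have hs3 := three_lt hn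
  have h1 : 0 < √(n : ℝ) := by linarith
  have h2 : 0 ≤ min (√(n : ℝ) - 3) (2 / 3 + 9 / (4 * √(n : ℝ))) :=
    le_min (by linarith) (by positivity)
  have h3 : 0 ≤ min (√(n : ℝ) - 3) (2 / 3 + 1 / (4 * √(n : ℝ))) :=
    le_min (by linarith) (by positivity)
  unfold badU
  split_ifs
  · exact le_rfl
  · linarith
  · linarith

theorem badN_nonneg {n : ℕ} (hn : 10 ≤ n) : 0 ≤ badN n := by
  have hs3 := three_lt hn
  have h1 : 0 < √(n : ℝ) := by linarith
  have h2 : 0 ≤ min (√(n : ℝ) - 3) (2 / 3 + 9 / (4 * √(n : ℝ))) :=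
    le_min (by linarith) (by positivity)
  have h3 : 0 ≤ min (√(n : ℝ) - 3) (2 / 3 + 1 / (4 * √(n : ℝ))) :=
    le_min (by linarith) (by positivity)
  unfold badN
  split_ifs
  · exact le_rfl
  · linarith

/-- the general form of the bounds for one number of points -/
theorem one_general (k d : ℕ) {δ : ℝ} (hδ : 0 < δ) (bad : ℕ → Prop) (b : ℝ) (hb : 0 ≤ b)
    (h : ∀ (s : ℕ → Finset ℕ) (v : ℕ → ℤ), AlgSmall s v → ∀ ε : ℝ, 0 < ε → ∀ᶠ N : ℕ in atTop,
      ({t : ℕ | t ∈ s N ∧ ∃ m : ℕ, 1 ≤ m ∧ (m : ℤ) = v t ∧ bad m}.ncard : ℝ) ≤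
        (b + ε) * (s N).card) {ε : ℝ} (hε : 0 < ε) :
    ∃ p₀ : ℕ, ∀ D : Data k d δ, p₀ ≤ D.p → ∀ i : Fin (k + 1),
      ({x : ℕ | x ∈ D.I ∧ 1 ≤ D.w i x ∧ bad (D.w i x)}.ncard : ℝ) ≤ (b + ε) * D.L := by
  classical
  have key : ∀ i : Fin (k + 1), ∃ p₀ : ℕ, ∀ D : Data k d δ, p₀ ≤ D.p →
      ({x : ℕ | x ∈ D.I ∧ 1 ≤ D.w i x ∧ bad (D.w i x)}.ncard : ℝ) ≤ (b + ε) * D.L := by
    intro i
    by_contra hcon
    push Not at hcon
    choose D hD hlt using hcon
    obtain ⟨N, hN⟩ := (h (sD D) (vD D i) (algSmall_seq hδ D hD i) ε hε).exists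
    rw [card_sD, ncard_sD] at hN
    have h1 : {x : ℕ | x ∈ (D N).I ∧ ∃ m : ℕ, 1 ≤ m ∧ (m : ℤ) = vD D i (Nat.pair N x) ∧ bad m} =
        {x : ℕ | x ∈ (D N).I ∧ 1 ≤ (D N).w i x ∧ bad ((D N).w i x)} := by
      ext x
      simp only [Set.mem_setOf_eq, vD_pair]
      refine and_congr_right fun _ => ?_
      constructor
      · rintro ⟨m, h1, h2, h3⟩
        have : m = (D N).w i x := by exact_mod_cast h2
        subst this
        exact ⟨h1, h3⟩
      · rintro ⟨h1, h2⟩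
        exact ⟨_, h1, rfl, h2⟩
    rw [h1] at hN
    have h2 : ((D N).I.card : ℝ) ≤ (D N).L := by exact_mod_cast (D N).card_I_le
    have h3 : (b + ε) * ((D N).I.card : ℝ) ≤ (b + ε) * (D N).L :=
      mul_le_mul_of_nonneg_left h2 (by linarith)
    have h4 := hlt N
    linarith
  choose p₀ hp₀ using key
  refine ⟨univ.sup p₀, fun D hD i => hp₀ i D ?_⟩
  exact (le_sup (f := p₀) (mem_univ i)).trans hD

/-- one number of points -/
theorem one (k d : ℕ) {δ : ℝ} (hδ : 0 < δ) {r : ℕ} (hr : 10 ≤ r) {ε : ℝ} (hε : 0 < ε) :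
    ∃ p₀ : ℕ, ∀ D : Data k d δ, p₀ ≤ D.p → ∀ i : Fin (k + 1),
      ({x : ℕ | x ∈ D.I ∧ 1 ≤ D.w i x ∧ ¬ Ex r (D.w i x)}.ncard : ℝ) ≤ (badU r + ε) * D.L :=
  one_general k d hδ (fun m => ¬ Ex r m) (badU r) (badU_nonneg hr)
    (fun _ _ h _ hε => one_seq hr h hε) hε

/-- near-uniform vectors -/
theorem near (k d : ℕ) {δ : ℝ} (hδ : 0 < δ) {r : ℕ} (hr : 10 ≤ r) {ε : ℝ} (hε : 0 < ε) :
    ∃ p₀ : ℕ, ∀ D : Data k d δ, p₀ ≤ D.p → ∀ i : Fin (k + 1),
      ({x : ℕ | x ∈ D.I ∧ 1 ≤ D.w i x ∧ ¬ GoodN r (D.w i x)}.ncard : ℝ) ≤ (badN r + ε) * D.L :=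
  one_general k d hδ (fun m => ¬ GoodN r m) (badN r) (badN_nonneg hr)
    (fun _ _ h _ hε => near_seq hr h hε) hε

end Pool.Agent.J4.H39.RM
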